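import Pool.Agent.Lib.P3fd.EF
import Pool.Agent.Lib.P3fd.Rep
import Pool.Agent.Lib.P3fd.Geo
import Pool.Agent.Lib.P3fd.BR
import Pool.Agent.Lib.P3fd.NT

set_option autoImplicit false

/-! For every r there are finite algebras, one representable and one not, which satisfy the same
first-order sentences of quantifier rank at most r.  So no set of first-order sentences of bounded
quantifier rank defines the representable relation algebras. -/

open FirstOrder P3fd

namespace Pool.Agent.Results.MP_3fd362_lc.BoundedRank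

/-- The Lyndon algebra with `6 * 9 ^ j + 1` slopes is not representable. -/
theorem not_rep (j : ℕ) : ¬ Representable (Set (Option (Fin (6 * 9 ^ j + 1)))) := by
  intro h
  obtain ⟨V, lab, hV, hn, hc, ht⟩ := rep_label h
  have h1 : 1 ≤ 9 ^ j := Nat.one_le_pow _ _ (by norm_num)
  obtain ⟨P, L, mem, fP, fL, pp, hord⟩ := plane_of_label
    (by rw [Fintype.card_fin]; omega) lab hV hn hc ht
  rw [Fintype.card_fin] at hord
  have hord' : Configuration.ProjectivePlane.order P L = 6 * 9 ^ j := by omega
  have hcard := Configuration.ProjectivePlane.card_points P L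
  have h4 : 4 ∣ Fintype.card P + 1 := by
    rw [hcard, hord']
    obtain ⟨m, hm⟩ : Odd (9 ^ j) := Odd.pow (by decide)
    rw [hm]
    exact ⟨36 * m ^ 2 + 39 * m + 11, by ring⟩
  obtain ⟨z, w, hzw⟩ := bruck_ryser (P := P) (L := L) h4
  rw [hord'] at hzw
  exact no_sol j z w hzw

theorem result (r : ℕ) :
    ∃ (M N : Type) (_ : RL.Structure M) (_ : RL.Structure N),
      Finite M ∧ Finite N ∧ Representable M ∧ ¬ Representable N ∧
      ∀ φ : RL.Sentence, qrank φ ≤ r → (M ⊨ φ ↔ N ⊨ φ) := by
  obtain ⟨p, hp1, hp⟩ := Nat.exists_infinite_primes (3 * 2 ^ r)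
  have : Fact p.Prime := ⟨hp⟩
  have h3 : 3 ≤ p := by
    have : 1 ≤ 2 ^ r := Nat.one_le_two_pow
    omega
  obtain ⟨j, hj⟩ : ∃ j : ℕ, 3 * 2 ^ r ≤ 6 * 9 ^ j + 1 := by
    refine ⟨3 * 2 ^ r, ?_⟩
    have : 3 * 2 ^ r < 9 ^ (3 * 2 ^ r) := Nat.lt_pow_self (by norm_num)
    omega
  refine ⟨Set (Option (Option (ZMod p))), Set (Option (Fin (6 * 9 ^ j + 1))), lyn _, lyn _,
    inferInstance, inferInstance, ?_, not_rep j, ?_⟩
  · apply rep_field
    intro t
    have hcard : Fintype.card (ZMod p) = p := ZMod.card p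
    have : ∃ s : ZMod p, s ∉ ({0, t} : Finset (ZMod p)) := by
      by_contra hcon
      push Not at hcon
      have h5 : (Finset.univ : Finset (ZMod p)).card ≤ ({0, t} : Finset (ZMod p)).card :=
        Finset.card_le_card (fun s _ => hcon s)
      rw [Finset.card_univ, hcard] at h5
      have h6 : ({0, t} : Finset (ZMod p)).card ≤ 2 := Finset.card_le_two
      omega
    obtain ⟨s, hs⟩ := this
    rw [Finset.mem_insert, Finset.mem_singleton] at hs
    exact ⟨s, fun e => hs (Or.inl e), fun e => hs (Or.inr e)⟩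
  · intro φ hφ
    apply lyn_equiv r _ _ φ hφ
    · rw [Set.encard_univ, ENat.card_eq_coe_fintype_card, Fintype.card_option, ZMod.card]
      exact_mod_cast (by omega : 3 * 2 ^ r ≤ p + 1)
    · rw [Set.encard_univ, ENat.card_eq_coe_fintype_card, Fintype.card_fin]
      exact_mod_cast hj

end Pool.Agent.Results.MP_3fd362_lc.BoundedRank
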